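import Mathlib
import Pool.Agent.Helper185.Deb8

namespace Pool.Agent.Results.MP_223b64_gt.NoTwoTactic

open MeasureTheory Cardinal Pool.Agent.Helper185.Deb

theorem main (h : TotalExtension) :
    ∃ (X : Type) (_ : TopologicalSpace X), T2Space X ∧ HasWinningStrategy X ∧
      ¬ HasWinningTactic X 2 := by
  obtain ⟨ν, hν, hadd⟩ := h
  obtain ⟨r, wo, hwo⟩ := Cardinal.exists_ord_eq ℝ
  have hr : ∀ b : ℝ, #{x : ℝ | r x b} < 𝔠 := by
    intro b
    have h1 := Cardinal.card_typein_lt (r := r) b hwo
    rw [Cardinal.mk_real] at h1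
    exact h1
  refine ⟨ℝ, topo r, t2 r, has_strategy r ν hν hadd hr, ?_⟩
  refine no_two_tactic r hr (@Measure.restrict ℝ ⊤ ν (Set.Icc 0 1)) ?_ ?_
  · refine @IsProbabilityMeasure.mk ℝ ⊤ _ ?_
    rw [@Measure.restrict_apply_univ ℝ ⊤ ν, hν _ measurableSet_Icc, Real.volume_Icc]
    simp
  · intro N hN
    refine le_antisymm ?_ zero_le
    rw [← small_null ν hν hadd N hN]
    exact @Measure.restrict_apply_le ℝ ⊤ ν _ N

/-- (1) If Lebesgue measure has an extension to all sets of reals for which unions of fewer than
`𝔠` null sets are null, then there is a Hausdorff space in which player II has a winning strategy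
in the Banach-Mazur game but no winning `2`-tactic. (2) Without any hypothesis: if winning
strategies of player II can always be replaced by winning `2`-tactics, then there is no such
extension of Lebesgue measure. -/
theorem result :
    (TotalExtension → ∃ (X : Type) (_ : TopologicalSpace X), T2Space X ∧ HasWinningStrategy X ∧
      ¬ HasWinningTactic X 2) ∧
    ((∀ (X : Type) (_ : TopologicalSpace X), HasWinningStrategy X → HasWinningTactic X 2) →
      ¬ TotalExtension) := by
  refine ⟨main, fun h1 h2 => ?_⟩
  obtain ⟨X, i, _, h3, h4⟩ := main h2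
  exact h4 (h1 X i h3)

end Pool.Agent.Results.MP_223b64_gt.NoTwoTactic
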